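import Mathlib
import Pool.Agent.N852.EL.Stm

/-!
# Bounded number of points of a projection (subtask EL/B of helper852)
-/

set_option autoImplicit false
set_option linter.unusedSectionVars false

namespace Pool.Agent.N216.EL

open MvPolynomial Pool.Agent.N852.EL

section

variable {T ι : Type} [Fintype T] [DecidableEq T] [Fintype ι] {κ : T → Type} [∀ t, Fintype (κ t)]

/-- The degree in the variables of the block `t`. -/
def bd (β : (Σ t, κ t) →₀ ℕ) (t : T) : ℕ := ∑ j, β ⟨t, j⟩

theorem bd_add (β γ : (Σ t, κ t) →₀ ℕ) (t : T) : bd (β + γ) t = bd β t + bd γ t := by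
  simp [bd, Finset.sum_add_distrib]

theorem exists_fun_le {α : Type} [Fintype α] (b : α → ℕ) (d : ℕ) (h : d ≤ ∑ j, b j) :
    ∃ b' : α → ℕ, (∀ j, b' j ≤ b j) ∧ ∑ j, b' j = d := by
  obtain ⟨g, hg, hgd⟩ := Finsupp.exists_le_degree_eq (Finsupp.equivFunOnFinite.symm b) d (by
    rw [Finsupp.degree_eq_sum]
    exact h)
  refine ⟨g, fun j => hg j, ?_⟩
  rw [Finsupp.degree_eq_sum] at hgd
  exact hgd

theorem exists_cut (β : (Σ t, κ t) →₀ ℕ) (t₀ : T) (d : ℕ) (h : d ≤ bd β t₀) :
    ∃ β' γ : (Σ t, κ t) →₀ ℕ, β = γ + β' ∧ bd β' t₀ = d ∧ ∀ t, t ≠ t₀ → bd β' t = bd β t := by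
  classical
  obtain ⟨b, hb, hbd⟩ := exists_fun_le (fun j => β ⟨t₀, j⟩) d h
  let e : (Σ t, κ t) → ℕ := fun q => if hq : q.1 = t₀ then b (hq ▸ q.2) else β q
  have he0 : ∀ j, e ⟨t₀, j⟩ = b j := fun j => by simp [e]
  have he1 : ∀ t, t ≠ t₀ → ∀ j, e ⟨t, j⟩ = β ⟨t, j⟩ := fun t ht j => by simp [e, ht]
  have hle : ∀ q, e q ≤ β q := by
    rintro ⟨t, j⟩
    by_cases ht : t = t₀
    · subst ht
      rw [he0]
      exact hb j
    · rw [he1 t ht]
  refine ⟨Finsupp.equivFunOnFinite.symm e, β - Finsupp.equivFunOnFinite.symm e, ?_, ?_, ?_⟩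
  · rw [tsub_add_cancel_of_le]
    exact fun q => hle q
  · rw [← hbd]
    exact Finset.sum_congr rfl fun j _ => he0 j
  · intro t ht
    exact Finset.sum_congr rfl fun j _ => he1 t ht j

theorem key {A : Type} [CommRing A] [Algebra ℂ A] (E : MvPolynomial (Σ t, κ t) ℂ →ₐ[ℂ] A) (t₀ : T)
    (d : ℕ) (f g : ι → MvPolynomial (Σ t, κ t) ℂ) (δ : ι → T → ℕ) (hf : ∀ l, MH (f l) (δ l))
    (hg : ∀ l, ∀ β ∈ (g l - f l).support, ∑ j, β ⟨t₀, j⟩ < δ l t₀ ∧
      ∀ t, t ≠ t₀ → ∑ j, β ⟨t, j⟩ = δ l t)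
    (hM : Mon f d) (hE : ∀ l, E (g l) = 0) (W : Submodule ℂ A)
    (hW : ∀ β, (∀ t, t ≠ t₀ → bd β t = d) → bd β t₀ < d → E (monomial β 1) ∈ W) :
    ∀ n, ∀ β, (∀ t, t ≠ t₀ → bd β t = d) → bd β t₀ = n → E (monomial β 1) ∈ W := by
  classical
  intro n
  induction n using Nat.strong_induction_on with
  | _ n ih =>
  intro β hβ hn
  by_cases hnd : n < d
  · exact hW β hβ (by omega)
  have smulmem : ∀ (β : (Σ t, κ t) →₀ ℕ) (c : ℂ), E (monomial β 1) ∈ W → E (monomial β c) ∈ W := by
    intro β c h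
    have h1 : monomial β c = c • monomial β (1 : ℂ) := by
      rw [smul_monomial, smul_eq_mul, mul_one]
    rw [h1, map_smul]
    exact W.smul_mem c h
  let P : ((Σ t, κ t) →₀ ℕ) → Prop := fun β => ∀ t, bd β t = if t = t₀ then n else d
  let q := W.mkQ
  let Λ : MvPolynomial (Σ t, κ t) ℂ →ₗ[ℂ] (A ⧸ W) :=
    (basisMonomials (Σ t, κ t) ℂ).constr ℂ (fun β => if P β then q (E (monomial β 1)) else 0)
  have hΛ1 : ∀ β, Λ (monomial β 1) = if P β then q (E (monomial β 1)) else 0 := by
    intro β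
    have h1 := (basisMonomials (Σ t, κ t) ℂ).constr_basis ℂ
      (fun β => if P β then q (E (monomial β 1)) else 0) β
    rw [coe_basisMonomials] at h1
    exact h1
  have hΛ : ∀ β c, Λ (monomial β c) = if P β then q (E (monomial β c)) else 0 := by
    intro β c
    have h1 : monomial β c = c • monomial β (1 : ℂ) := by
      rw [smul_monomial, smul_eq_mul, mul_one]
    rw [h1, map_smul, hΛ1, map_smul, map_smul]
    split_ifs
    · rfl
    · exact smul_zero c
  have hmul : ∀ (μ : (Σ t, κ t) →₀ ℕ) (a : ℂ) (p : MvPolynomial (Σ t, κ t) ℂ),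
      monomial μ a * p = ∑ β ∈ p.support, monomial (μ + β) (a * p.coeff β) := by
    intro μ a p
    conv_lhs => rw [p.as_sum, Finset.mul_sum]
    exact Finset.sum_congr rfl fun β _ => by rw [monomial_mul]
  have hzero : ∀ l (h : MvPolynomial (Σ t, κ t) ℂ), Λ (h * f l) = 0 := by
    intro l h
    induction h using MvPolynomial.induction_on' with
    | add p r hp hr => rw [add_mul, map_add, hp, hr, add_zero]
    | monomial μ a =>
      by_cases hP : ∀ t, bd μ t + δ l t = if t = t₀ then n else d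
      · have hPβ : ∀ β ∈ (f l).support, P (μ + β) := by
          intro β hβ t
          rw [bd_add, ← hP t, ← hf l β hβ t]
          rfl
        have h1 : Λ (monomial μ a * f l) = q (E (monomial μ a * f l)) := by
          rw [hmul, map_sum, map_sum, map_sum]
          refine Finset.sum_congr rfl fun β hβ => ?_
          rw [hΛ, if_pos (hPβ β hβ)]
        have h2 : monomial μ a * f l = monomial μ a * g l - monomial μ a * (g l - f l) := by ring
        rw [h1, h2, map_sub, map_mul, hE, mul_zero, zero_sub, map_neg, neg_eq_zero]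
        change W.mkQ _ = 0
        rw [Submodule.mkQ_apply, Submodule.Quotient.mk_eq_zero, hmul, map_sum]
        refine W.sum_mem fun β hβ => smulmem _ _ ?_
        obtain ⟨h3, h4⟩ := hg l β hβ
        have h5 := hP t₀
        rw [if_pos rfl] at h5
        refine ih (bd (μ + β) t₀) ?_ (μ + β) ?_ rfl
        · rw [bd_add, ← h5]
          exact Nat.add_lt_add_left h3 _
        · intro t ht
          have h6 := hP t
          rw [if_neg ht] at h6
          rw [bd_add, ← h6, ← h4 t ht]
          rfl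
      · rw [hmul, map_sum]
        refine Finset.sum_eq_zero fun β hβ => ?_
        rw [hΛ, if_neg]
        intro h3
        apply hP
        intro t
        rw [← h3 t, bd_add, ← hf l β hβ t]
        rfl
  obtain ⟨β', γ, hβγ, hβ'0, hβ'1⟩ := exists_cut β t₀ d (by omega)
  have hmem : monomial β' (1 : ℂ) ∈ Ideal.span (Set.range f) := by
    refine hM β' fun t => ?_
    by_cases ht : t = t₀
    · rw [ht]
      exact hβ'0
    · have := hβ'1 t ht
      rw [hβ t ht] at this
      exact this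
  obtain ⟨c, hc⟩ := Ideal.mem_span_range_iff_exists_fun.1 hmem
  have h1 : monomial β (1 : ℂ) = ∑ l, (monomial γ 1 * c l) * f l := by
    have h2 : monomial β (1 : ℂ) = monomial γ 1 * monomial β' 1 := by
      rw [monomial_mul, ← hβγ, one_mul]
    rw [h2, ← hc, Finset.mul_sum]
    exact Finset.sum_congr rfl fun l _ => by ring
  have h2 : Λ (monomial β 1) = 0 := by
    rw [h1, map_sum]
    exact Finset.sum_eq_zero fun l _ => hzero l _
  rw [hΛ1, if_pos] at h2
  · have h3 : W.mkQ (E (monomial β 1)) = 0 := h2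
    rwa [Submodule.mkQ_apply, Submodule.Quotient.mk_eq_zero] at h3
  · intro t
    by_cases ht : t = t₀
    · rw [if_pos ht, ht]
      exact hn
    · rw [if_neg ht]
      exact hβ t ht

end

theorem fewP : FewP := by
  classical
  intro T ι _ _ _ κ _ t₀ d
  refine ⟨Fintype.card ((Σ t, κ t) → Fin (d + 1)), ?_⟩
  intro f g δ hf hg hM Y hY
  choose! zz hz0 hz1 hz2 using hY
  let E : MvPolynomial (Σ t, κ t) ℂ →ₐ[ℂ] (Y → ℂ) :=
    aeval (fun q => fun y : Y => zz y.1 q.1 q.2)
  have hEy : ∀ p (y : Y), E p y = eval (fun q => zz y.1 q.1 q.2) p := by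
    intro p y
    induction p using MvPolynomial.induction_on with
    | C a => simp [E]
    | add p r hp hr => rw [map_add, map_add, Pi.add_apply, hp, hr]
    | mul_X p i hp => rw [map_mul, map_mul, Pi.mul_apply, hp]; simp [E]
  have hE : ∀ l, E (g l) = 0 := fun l => by
    funext y
    rw [hEy]
    exact hz2 y.1 y.2 l
  let W : Submodule ℂ (Y → ℂ) := Submodule.span ℂ
    {w | ∃ β : (Σ t, κ t) →₀ ℕ, (∀ t, t ≠ t₀ → bd β t = d) ∧ bd β t₀ < d ∧ w = E (monomial β 1)}
  have hkey := key E t₀ d f g δ hf hg hM hE W (fun β h1 h2 =>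
    Submodule.subset_span ⟨β, h1, h2, rfl⟩)
  -- multiplication by coordinates
  have hmulX : ∀ j : κ t₀, ∀ w ∈ W, (fun y : Y => y.1 j) * w ∈ W := by
    intro j w hw
    induction hw using Submodule.span_induction with
    | mem x hx =>
      obtain ⟨β, h1, h2, rfl⟩ := hx
      have h3 : (fun y : Y => y.1 j) * E (monomial β 1) =
          E (monomial (Finsupp.single ⟨t₀, j⟩ 1 + β) 1) := by
        have h4 : monomial (Finsupp.single (⟨t₀, j⟩ : Σ t, κ t) 1 + β) (1 : ℂ) =
            X ⟨t₀, j⟩ * monomial β 1 := by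
          rw [X, monomial_mul, one_mul]
        rw [h4, map_mul]
        congr 1
        funext y
        rw [hEy, eval_X, hz0 y.1 y.2]
      rw [h3]
      refine hkey _ _ (fun t ht => ?_) rfl
      rw [bd_add, h1 t ht]
      have h5 : bd (Finsupp.single (⟨t₀, j⟩ : Σ t, κ t) 1) t = 0 := by
        refine Finset.sum_eq_zero fun i _ => ?_
        rw [Finsupp.single_apply, if_neg]
        intro h6
        exact ht (congrArg Sigma.fst h6).symm
      rw [h5, zero_add]
    | zero => rw [mul_zero]; exact W.zero_mem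
    | add x y _ _ hx hy => rw [mul_add]; exact W.add_mem hx hy
    | smul a x _ hx => rw [mul_smul_comm]; exact W.smul_mem a hx
  have hmulP : ∀ (s : Finset Y) (u : Y → (Y → ℂ)), (∀ y' ∈ s, ∀ w ∈ W, u y' * w ∈ W) →
      ∀ w ∈ W, (∏ y' ∈ s, u y') * w ∈ W := by
    intro s u hu
    refine Finset.prod_induction u (fun v => ∀ w ∈ W, v * w ∈ W) ?_ ?_ hu
    · intro a b ha hb w hw
      rw [mul_assoc]
      exact ha _ (hb _ hw)
    · intro w hw
      rw [one_mul]
      exact hw
  have hsingle : ∀ y : Y, (Pi.single y 1 : Y → ℂ) ∈ W := by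
    intro y
    -- the first factor
    have h1 : ∀ t, t ≠ t₀ → ∃ j, zz y.1 t j ≠ 0 := fun t ht => by
      have := hz1 y.1 y.2 t ht
      by_contra h2
      push Not at h2
      exact this (funext h2)
    choose jj hjj using h1
    let β₀ : (Σ t, κ t) →₀ ℕ := Finsupp.equivFunOnFinite.symm
      (fun q => if h : q.1 ≠ t₀ then (if q.2 = jj q.1 h then d else 0) else 0)
    have hβ₀ : ∀ q, β₀ q = if h : q.1 ≠ t₀ then (if q.2 = jj q.1 h then d else 0) else 0 :=
      fun q => rfl
    have hβ1 : ∀ t, t ≠ t₀ → bd β₀ t = d := fun t ht => by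
      have h2 : ∀ j, β₀ ⟨t, j⟩ = if j = jj t ht then d else 0 := fun j => by
        rw [hβ₀, dif_pos ht]
      rw [bd, Finset.sum_congr rfl fun j _ => h2 j, Finset.sum_ite_eq' Finset.univ]
      simp
    have hw₀ : E (monomial β₀ 1) ∈ W := hkey _ β₀ hβ1 rfl
    have hw₀y : E (monomial β₀ 1) y ≠ 0 := by
      rw [hEy, eval_monomial, one_mul, Finsupp.prod, Finset.prod_ne_zero_iff]
      intro q hq
      rw [Finsupp.mem_support_iff, hβ₀] at hq
      by_cases h2 : q.1 ≠ t₀
      · rw [dif_pos h2] at hq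
        by_cases h3 : q.2 = jj q.1 h2
        · rw [h3]
          exact pow_ne_zero _ (hjj q.1 h2)
        · rw [if_neg h3] at hq
          exact absurd rfl hq
      · rw [dif_neg h2] at hq
        exact absurd rfl hq
    have h2 : ∀ y' : Y, y' ≠ y → ∃ i, y.1 i ≠ y'.1 i := fun y' hy' => by
      by_contra h3
      push Not at h3
      exact hy' (Subtype.ext (funext fun i => (h3 i).symm))
    choose i hi using h2
    let u : Y → (Y → ℂ) := fun y' => if h : y' ≠ y then
      (fun y'' => y''.1 (i y' h) - y'.1 (i y' h)) else 1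
    have hu : ∀ y' (h : y' ≠ y) y'', u y' y'' = y''.1 (i y' h) - y'.1 (i y' h) :=
      fun y' h y'' => by simp only [u]; rw [dif_pos h]
    have hw₁ : (∏ y' ∈ Finset.univ.erase y, u y') * E (monomial β₀ 1) ∈ W := by
      refine hmulP _ u ?_ _ hw₀
      intro y' hy' w hw
      have h3 : y' ≠ y := Finset.ne_of_mem_erase hy'
      have h4 : u y' * w = (fun y'' : Y => y''.1 (i y' h3)) * w - (y'.1 (i y' h3)) • w := by
        funext y''
        rw [Pi.mul_apply, hu y' h3, Pi.sub_apply, Pi.mul_apply, Pi.smul_apply, smul_eq_mul]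
        ring
      rw [h4]
      exact W.sub_mem (hmulX _ w hw) (W.smul_mem _ hw)
    set w₁ : Y → ℂ := (∏ y' ∈ Finset.univ.erase y, u y') * E (monomial β₀ 1) with hw₁d
    have hw₁y : w₁ y ≠ 0 := by
      rw [hw₁d, Pi.mul_apply, Finset.prod_apply]
      refine mul_ne_zero (Finset.prod_ne_zero_iff.2 fun y' hy' => ?_) hw₀y
      rw [hu y' (Finset.ne_of_mem_erase hy')]
      exact sub_ne_zero.2 (hi _ _)
    have hw₁0 : ∀ y', y' ≠ y → w₁ y' = 0 := by
      intro y' hy'
      rw [hw₁d, Pi.mul_apply, Finset.prod_apply]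
      refine mul_eq_zero_of_left (Finset.prod_eq_zero (i := y')
        (Finset.mem_erase.2 ⟨hy', Finset.mem_univ _⟩) ?_) _
      rw [hu y' hy', sub_self]
    have h5 : (Pi.single y 1 : Y → ℂ) = (w₁ y)⁻¹ • w₁ := by
      funext y'
      rw [Pi.smul_apply, smul_eq_mul]
      by_cases h6 : y' = y
      · rw [h6, Pi.single_eq_same, inv_mul_cancel₀ hw₁y]
      · rw [Pi.single_eq_of_ne h6, hw₁0 y' h6, mul_zero]
    rw [h5]
    exact W.smul_mem _ hw₁
  have htop : W = ⊤ := by
    rw [eq_top_iff]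
    intro w _
    have h1 : w = ∑ y, w y • (Pi.single y 1 : Y → ℂ) := by
      funext z
      simp [Finset.sum_apply, Pi.single_apply]
    rw [h1]
    exact W.sum_mem fun y _ => W.smul_mem _ (hsingle y)
  let F : ((Σ t, κ t) → Fin (d + 1)) → (Y → ℂ) := fun c =>
    E (monomial (Finsupp.equivFunOnFinite.symm (fun q => (c q : ℕ))) 1)
  have hF : Submodule.span ℂ (Set.range F) = ⊤ := by
    rw [eq_top_iff, ← htop]
    refine Submodule.span_le.2 ?_
    rintro w ⟨β, h1, h2, rfl⟩
    refine Submodule.subset_span ⟨fun q => ⟨β q, ?_⟩, ?_⟩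
    · have h3 : β q ≤ bd β q.1 := by
        obtain ⟨t, j⟩ := q
        exact Finset.single_le_sum (f := fun j => β ⟨t, j⟩) (fun _ _ => Nat.zero_le _)
          (Finset.mem_univ j)
      by_cases h4 : q.1 = t₀
      · rw [h4] at h3
        omega
      · rw [h1 q.1 h4] at h3
        omega
    · have h5 : (Finsupp.equivFunOnFinite.symm fun q => β q) = β := Finsupp.ext fun q => rfl
      simp only [F]
      rw [h5]
  have h1 := finrank_le_of_span_eq_top hF
  rw [Module.finrank_fintype_fun_eq_card, Fintype.card_coe] at h1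
  exact h1

end Pool.Agent.N216.EL
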